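import Pool.Agent.H624.WS.Stm

/-!
# VAR (MP_33144e_an, helper624): the common integrable bound `w` (essential supremum)
-/

set_option autoImplicit false

open MeasureTheory Set Filter Topology
open scoped ENNReal
open Pool.Agent.H624.WS

noncomputable section

namespace Pool.Agent.H190.VAR

open Classical in
/-- the maximum of `|t x ω|` over `x ∈ F ∪ {0}` -/
def hF {Ω X : Type} [Zero X] (t : X → Ω → ℝ) (F : Finset X) (ω : Ω) : ℝ :=
  (insert 0 F).sup' (Finset.insert_nonempty 0 F) (fun x => |t x ω|)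

section
variable {Ω X : Type} [Zero X] {t : X → Ω → ℝ}

open Classical in
lemma hF_exists (F : Finset X) (ω : Ω) : ∃ x ∈ insert 0 F, hF t F ω = |t x ω| := by
  obtain ⟨x, hx, he⟩ := Finset.exists_mem_eq_sup' (Finset.insert_nonempty 0 F)
    (fun x => |t x ω|)
  exact ⟨x, hx, he⟩

open Classical in
lemma le_hF {F : Finset X} {x : X} (hx : x ∈ insert 0 F) (ω : Ω) : |t x ω| ≤ hF t F ω :=
  Finset.le_sup' (fun x => |t x ω|) hx

lemma hF_nonneg (F : Finset X) (ω : Ω) : 0 ≤ hF t F ω := by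
  classical
  exact (abs_nonneg (t 0 ω)).trans (le_hF (Finset.mem_insert_self 0 F) ω)

lemma hF_mono {F G : Finset X} (h : F ⊆ G) (ω : Ω) : hF t F ω ≤ hF t G ω := by
  classical
  obtain ⟨x, hx, he⟩ := hF_exists (t := t) F ω
  rw [he]
  exact le_hF (Finset.insert_subset_insert 0 h hx) ω

open Classical in
lemma hF_insert (F : Finset X) (x : X) (ω : Ω) :
    hF t (insert x F) ω = max (|t x ω|) (hF t F ω) := by
  apply le_antisymm
  · obtain ⟨y, hy, he⟩ := hF_exists (t := t) (insert x F) ω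
    rw [he]
    rw [Finset.mem_insert, Finset.mem_insert] at hy
    rcases hy with hy | hy | hy
    · exact le_max_of_le_right (le_hF (by rw [hy]; exact Finset.mem_insert_self _ _) ω)
    · rw [hy]; exact le_max_left _ _
    · exact le_max_of_le_right (le_hF (Finset.mem_insert_of_mem hy) ω)
  · apply max_le
    · exact le_hF (Finset.mem_insert_of_mem (Finset.mem_insert_self x F)) ω
    · exact hF_mono (Finset.subset_insert x F) ω

lemma hF_meas [MeasurableSpace Ω] (ht : ∀ x, Measurable (t x)) (F : Finset X) :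
    Measurable (hF t F) := by
  classical
  have h1 : Measurable ((insert 0 F).sup' (Finset.insert_nonempty 0 F)
      (fun x => fun ω => |t x ω|)) :=
    Finset.measurable_sup' _ fun x _ => (ht x).abs
  have e : (insert 0 F).sup' (Finset.insert_nonempty 0 F) (fun x => fun ω => |t x ω|) =
      hF t F := by
    funext ω
    rw [Finset.sup'_apply]
    rfl
  rw [← e]
  exact h1

lemma hF_int [MeasurableSpace Ω] {μ : Measure Ω} (ht : ∀ x, Measurable (t x))
    (hti : ∀ x, Integrable (t x) μ) (F : Finset X) : Integrable (hF t F) μ := by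
  classical
  have h1 : Integrable (fun ω => ∑ x ∈ insert 0 F, |t x ω|) μ :=
    integrable_finsetSum _ fun x _ => (hti x).abs
  refine h1.mono' (hF_meas ht F).aestronglyMeasurable (Eventually.of_forall fun ω => ?_)
  rw [Real.norm_of_nonneg (hF_nonneg F ω)]
  obtain ⟨x, hx, he⟩ := hF_exists (t := t) F ω
  rw [he]
  exact Finset.single_le_sum (f := fun x => |t x ω|) (fun _ _ => abs_nonneg _) hx

end

lemma ind_smul {Ω : Type} [MeasurableSpace Ω] {μ : Measure Ω} {X : Type} [NormedAddCommGroup X]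
    [NormedSpace ℝ X] {p : ℝ≥0∞} {s : Set Ω} (hs : MeasurableSet s) (hμ : μ s ≠ ∞) (r : ℝ)
    (x : X) : indicatorConstLp p hs hμ (r • x) = r • indicatorConstLp p hs hμ x := by
  apply Lp.ext
  filter_upwards [indicatorConstLp_coeFn (p := p) (hs := hs) (hμs := hμ) (c := r • x),
    indicatorConstLp_coeFn (p := p) (hs := hs) (hμs := hμ) (c := x),
    Lp.coeFn_smul r (indicatorConstLp p hs hμ x)] with ω h1 h2 h3
  rw [h1, h3, Pi.smul_apply, h2]
  by_cases hω : ω ∈ s
  · simp [hω]
  · simp [hω]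

end Pool.Agent.H190.VAR

open Pool.Agent.H190.VAR in
theorem Pool.Agent.H190.sVAR (h : S_DENS) : S_VAR := by
  classical
  intro Ω _ μ _ X _ _ p _ hp Λ hΛ
  obtain ⟨t, ht, hti, hΛt, hF1⟩ := h Ω μ X p hp Λ hΛ
  have hmeas := fun F => hF_meas ht F
  have hint := fun F => hF_int ht hti F
  have hle1 : ∀ F : Finset X, (∀ x ∈ F, ‖x‖ ≤ 1) → ∫ ω, hF t F ω ∂μ ≤ 1 := by
    intro F hB
    refine hF1 (insert 0 F) ?_ (hF t F) (hmeas F) (fun ω => ?_) (fun ω => hF_nonneg F ω)
    · intro x hx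
      rcases Finset.mem_insert.1 hx with hx | hx
      · rw [hx, norm_zero]; exact zero_le_one
      · exact hB x hx
    · obtain ⟨x, hx, he⟩ := hF_exists (t := t) F ω
      exact ⟨x, hx, he.le⟩
  set A : Set ℝ := (fun F => ∫ ω, hF t F ω ∂μ) '' {F : Finset X | ∀ x ∈ F, ‖x‖ ≤ 1} with hA
  have hAne : A.Nonempty := ⟨_, ∅, by simp, rfl⟩
  have hAbdd : BddAbove A := ⟨1, by rintro _ ⟨F, hF, rfl⟩; exact hle1 F hF⟩
  set c := sSup A with hc
  have hsel : ∀ k : ℕ, ∃ F : Finset X, (∀ x ∈ F, ‖x‖ ≤ 1) ∧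
      c - 1 / ((k : ℝ) + 1) < ∫ ω, hF t F ω ∂μ := by
    intro k
    have hk : c - 1 / ((k : ℝ) + 1) < sSup A := by
      rw [← hc]
      have : 0 < 1 / ((k : ℝ) + 1) := by positivity
      linarith
    obtain ⟨_, ⟨F, hF, rfl⟩, hlt⟩ := exists_lt_of_lt_csSup hAne hk
    exact ⟨F, hF, hlt⟩
  choose F₀ hF₀ hF₀' using hsel
  set F : ℕ → Finset X := fun k => (Finset.range (k + 1)).biUnion F₀ with hFdef
  have hFB : ∀ k, ∀ x ∈ F k, ‖x‖ ≤ 1 := by
    intro k x hx
    rw [hFdef, Finset.mem_biUnion] at hx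
    obtain ⟨j, _, hj⟩ := hx
    exact hF₀ j x hj
  have hFmono : Monotone F := by
    intro i j hij
    exact Finset.biUnion_subset_biUnion_of_subset_left _
      (Finset.range_subset_range.2 (by omega))
  have hFc : ∀ k : ℕ, c - 1 / ((k : ℝ) + 1) < ∫ ω, hF t (F k) ω ∂μ := by
    intro k
    refine (hF₀' k).trans_le (integral_mono (hint _) (hint _) fun ω => hF_mono ?_ ω)
    exact Finset.subset_biUnion_of_mem F₀ (Finset.mem_range.2 (Nat.lt_succ_self k))
  set w0 : Ω → ℝ≥0∞ := fun ω => ⨆ k, ENNReal.ofReal (hF t (F k) ω) with hw0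
  have hw0m : Measurable w0 := Measurable.iSup fun k => (hmeas (F k)).ennreal_ofReal
  have hw0i : ∫⁻ ω, w0 ω ∂μ ≤ 1 := by
    rw [hw0, lintegral_iSup (fun k => (hmeas (F k)).ennreal_ofReal)
      (fun i j hij ω => ENNReal.ofReal_le_ofReal (hF_mono (hFmono hij) ω))]
    refine iSup_le fun k => ?_
    rw [← ofReal_integral_eq_lintegral_ofReal (hint _)
      (Eventually.of_forall fun ω => hF_nonneg _ ω)]
    exact ENNReal.ofReal_le_one.2 (hle1 _ (hFB k))
  have hne : ∫⁻ ω, w0 ω ∂μ ≠ ∞ := (lt_of_le_of_lt hw0i ENNReal.one_lt_top).ne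
  have hfin : ∀ᵐ ω ∂μ, w0 ω < ∞ := ae_lt_top hw0m hne
  set w : Ω → ℝ := fun ω => (w0 ω).toReal with hw
  have hwm : Measurable w := hw0m.ennreal_toReal
  have hwi : Integrable w μ := integrable_toReal_of_lintegral_ne_top hw0m.aemeasurable hne
  have hw1 : ∫ ω, w ω ∂μ ≤ 1 := by
    rw [hw, integral_toReal hw0m.aemeasurable hfin]
    exact ENNReal.toReal_mono ENNReal.one_ne_top hw0i |>.trans_eq ENNReal.toReal_one
  have hwF : ∀ᵐ ω ∂μ, ∀ k, hF t (F k) ω ≤ w ω := by
    filter_upwards [hfin] with ω hω k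
    have h1 : ENNReal.ofReal (hF t (F k) ω) ≤ w0 ω := le_iSup (fun k => ENNReal.ofReal
      (hF t (F k) ω)) k
    exact (ENNReal.ofReal_le_iff_le_toReal hω.ne).1 h1
  -- the bound for vectors of the unit ball
  have hunit : ∀ x : X, ‖x‖ ≤ 1 → ∀ᵐ ω ∂μ, |t x ω| ≤ w ω := by
    intro x hx
    have hgm : Measurable (fun ω => max (|t x ω| - w ω) 0) :=
      (((ht x).abs).sub hwm).max measurable_const
    have hgi : Integrable (fun ω => max (|t x ω| - w ω) 0) μ := by
      refine ((hti x).abs).mono' hgm.aestronglyMeasurable (Eventually.of_forall fun ω => ?_)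
      rw [Real.norm_of_nonneg (le_max_right _ _)]
      have hw0' : 0 ≤ w ω := ENNReal.toReal_nonneg
      exact max_le (by linarith) (abs_nonneg _)
    have hk : ∀ k : ℕ, ∫ ω, max (|t x ω| - w ω) 0 ∂μ ≤ 1 / ((k : ℝ) + 1) := by
      intro k
      have hb : ∀ y ∈ insert x (F k), ‖y‖ ≤ 1 := by
        intro y hy
        rcases Finset.mem_insert.1 hy with hy | hy
        · rw [hy]; exact hx
        · exact hFB k y hy
      have h1 : ∫ ω, hF t (insert x (F k)) ω ∂μ ≤ c := le_csSup hAbdd ⟨_, hb, rfl⟩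
      have h2 : ∫ ω, max (|t x ω| - w ω) 0 ∂μ ≤
          ∫ ω, (hF t (insert x (F k)) ω - hF t (F k) ω) ∂μ := by
        refine integral_mono_ae hgi ((hint _).sub (hint _)) ?_
        filter_upwards [hwF] with ω hω
        show max (|t x ω| - w ω) 0 ≤ hF t (insert x (F k)) ω - hF t (F k) ω
        rw [hF_insert]
        have h3 := hω k
        refine max_le ?_ ?_
        · have := le_max_left (|t x ω|) (hF t (F k) ω)
          linarith
        · have := le_max_right (|t x ω|) (hF t (F k) ω)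
          linarith
      rw [integral_sub (hint _) (hint _)] at h2
      have h3 := hFc k
      linarith
    have hzero : ∫ ω, max (|t x ω| - w ω) 0 ∂μ = 0 := by
      apply le_antisymm
      · exact ge_of_tendsto' tendsto_one_div_add_atTop_nhds_zero_nat hk
      · exact integral_nonneg fun ω => le_max_right _ _
    have hzero' := (integral_eq_zero_iff_of_nonneg (f := fun ω => max (|t x ω| - w ω) 0)
      (fun ω => le_max_right _ _) hgi).1 hzero
    filter_upwards [hzero'] with ω hω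
    have h4 : max (|t x ω| - w ω) 0 = 0 := hω
    have h5 := le_max_left (|t x ω| - w ω) 0
    linarith
  refine ⟨t, w, ht, hwm, fun ω => ENNReal.toReal_nonneg, hwi, hw1, ?_, hΛt⟩
  intro x
  set x' := ‖x‖⁻¹ • x with hx'
  have hx'1 : ‖x'‖ ≤ 1 := by
    rw [hx', norm_smul, norm_inv, norm_norm]
    exact inv_mul_le_one
  have hxx : x = ‖x‖ • x' := by
    by_cases h0 : x = 0
    · rw [h0]; simp
    · rw [hx', smul_smul, mul_inv_cancel₀ (norm_ne_zero_iff.2 h0), one_smul]
  have hae : t x =ᵐ[μ] fun ω => ‖x‖ * t x' ω := by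
    refine Integrable.ae_eq_of_forall_setIntegral_eq _ _ (hti x) ((hti x').const_mul _) ?_
    intro s hs _
    rw [integral_const_mul, ← hΛt x s hs, ← hΛt x' s hs]
    conv_lhs => rw [hxx, ind_smul, map_smul, smul_eq_mul]
  filter_upwards [hae, hunit x' hx'1] with ω h1 h2
  rw [h1, abs_mul, abs_of_nonneg (norm_nonneg x)]
  exact mul_le_mul_of_nonneg_left h2 (norm_nonneg x)
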